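import Pool.Agent.Y190.CI.Stm

/-!
Job CI-DEG: the degree inequality on curves.  The first theorem is a copy of `Fam.ge_phi` of
helper190 with an additional parameter.
-/

set_option autoImplicit false
set_option linter.all false

open FF Pool.Agent.W603.LV Pool.Agent.W602.GT Polynomial

namespace Pool.Agent.Y115.CI

open Pool.Agent.Y190.BV Pool.Agent.Y190.SC Pool.Agent.Y190.CI

section

variable {k K L : Type} [Field k] [Field K] [Field L] [Algebra k K] [Algebra k L] [Algebra K L]
  [IsScalarTower k K L]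

variable {κ ι : Type} [Fintype κ] [Fintype ι] {w q : ℕ}

variable [FiniteDimensional K L] [IsGalois K L]

/-- **The order of the forms**, with an excess `S`. -/
theorem ge_phiS [Infinite k] (T : Fam K L κ ι w) {W : Place k L} {P : Place k K} {e0 : ℕ}
    (hWP : Over W P e0) {b : Bool} (D : Fin w → Derivation k K K) (hD : ∀ i, DKind b P (D i))
    (a : Fin q → k) (ha : Function.Injective a) {M S : ℕ} {c : Fin q → ℕ} (hM : 0 < M)
    (h0 : ∀ x i, (T.p x).eval (algebraMap k K (a i)) ≠ 0)
    (hram : b = true → SumC M c a T.H P)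
    (hbound : ∀ x, Fintype.card ι * ∑ i, c i + 2 * (T.p x).natDegree * M + S ≤ q * M)
    (ψ : K) (hψ : Ge W (-((S : ℤ) * ∑ x, ((T.e x * (T.p x).natDegree : ℕ) : ℤ) * SS K W (T.base x)))
      (algebraMap K L ψ)) :
    Ge W 0 (algebraMap K L (T.phi M c a ψ D)) := by
  classical
  have he0 : (0 : ℤ) < e0 := by exact_mod_cast hWP.1
  have hJa : ∀ l j i, T.J l j ≠ algebraMap k L (a i) := by
    intro l j i h
    have h1 := T.root l j
    rw [h, IsScalarTower.algebraMap_apply k K L, aeval_algebraMap_apply, map_eq_zero,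
      coe_aeval_eq_eval] at h1
    exact h0 _ i h1
  have h5 : Fintype.card (L ≃ₐ[K] L) = Module.finrank K L := by
    rw [← Nat.card_eq_fintype_card]
    exact IsGalois.card_aut_eq_finrank K L
  set g : ℤ := (Module.finrank K L : ℤ) with hg
  set V : (L ≃ₐ[K] L) → Place k L := fun s => W.comp (rs (k := k) s) with hV
  set dd : ι → Fin w → ℕ := fun l j => (T.p (T.c l j)).natDegree with hdd
  set β : (L ≃ₐ[K] L) → ι → Fin w → ℤ := fun s l j =>
    bet (V s) e0 (cnt P (T.p (T.c l j))) (dd l j) a (T.J l j) with hβ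
  set NE : (L ≃ₐ[K] L) → ι → ℤ := fun s l =>
    if b = true ∧ ∃ j i, 0 < vv (V s) (T.J l j) (a i) then (e0 : ℤ) else 0 with hNE
  -- the determinants
  have hdet : ∀ s l, Ge (V s) (∑ j, β s l j - NE s l) (T.mat l D).det := by
    intro s l
    refine det_ge (over_rs hWP s) (dd l) (fun j => (T.p (T.c l j)).coeff)
      (fun j => cnt P (T.p (T.c l j))) (fun j m _ => cnt_ge P _ m) a ha (fun j i => ?_)
      (T.J l) (fun j => ?_) b D hD
    · rw [ev_eq_eval]
      exact h0 _ i
    · rw [ev_eq_aeval]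
      exact T.root l j
  have hD2 : Ge W (∑ l, ∑ s, (∑ j, β s l j - NE s l))
      (∏ l, algebraMap K L (Algebra.norm K (T.mat l D).det)) := by
    refine Ge.prod _ _ _ fun l _ => ?_
    exact ge_norm _ fun s => hdet s l
  -- the denominator
  have hN : ∀ l j i, Algebra.norm K (T.J l j - algebraMap k L (a i)) ≠ 0 := fun l j i =>
    norm_ne (sub_ne_zero.2 (hJa l j i))
  have hden0 : T.den M a ≠ 0 := Finset.prod_ne_zero_iff.2 fun l _ =>
    Finset.prod_ne_zero_iff.2 fun j _ => Finset.prod_ne_zero_iff.2 fun i _ => pow_ne_zero _ (hN l j i)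
  have hden : W.ord (algebraMap K L (T.den M a)) =
      ∑ l, ∑ j, ∑ i, (M : ℤ) * ∑ s, (V s).ord (T.J l j - algebraMap k L (a i)) := by
    unfold Fam.den
    rw [map_prod, ord_prod' W _ _ fun l _ => by
      rw [Ne, map_eq_zero]
      exact Finset.prod_ne_zero_iff.2 fun j _ =>
        Finset.prod_ne_zero_iff.2 fun i _ => pow_ne_zero _ (hN l j i)]
    refine Finset.sum_congr rfl fun l _ => ?_
    rw [map_prod, ord_prod' W _ _ fun j _ => by
      rw [Ne, map_eq_zero]
      exact Finset.prod_ne_zero_iff.2 fun i _ => pow_ne_zero _ (hN l j i)]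
    refine Finset.sum_congr rfl fun j _ => ?_
    rw [map_prod, ord_prod' W _ _ fun i _ => by
      rw [Ne, map_eq_zero]
      exact pow_ne_zero _ (hN l j i)]
    refine Finset.sum_congr rfl fun i _ => ?_
    rw [map_pow, W.ord_pow, ord_norm (sub_ne_zero.2 (hJa l j i))]
  -- the values
  have hHe : ∀ i, T.H.eval (algebraMap k K (a i)) ≠ 0 := fun i => T.H_eval fun x => h0 x i
  have hval : Ge W (e0 * ∑ i, (c i : ℤ) * P.ord (T.H.eval (algebraMap k K (a i))))
      (algebraMap K L (∏ i, (T.H.eval (algebraMap k K (a i))) ^ c i)) := by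
    right
    rw [hWP.2, ord_prod' P _ _ fun i _ => pow_ne_zero _ (hHe i)]
    apply le_of_eq
    congr 1
    exact Finset.sum_congr rfl fun i _ => (P.ord_pow _ _).symm
  unfold Fam.phi
  rw [map_mul, map_mul, map_div₀, map_pow, map_pow,
    map_prod (algebraMap K L) (fun l => Algebra.norm K (T.mat l D).det)]
  have h1 := ge_div ((_root_.map_ne_zero (algebraMap K L)).2 hden0) hψ
  have hval2 := hval.pow (Fintype.card ι * Module.finrank K L)
  refine ((h1.mul hval2).mul (hD2.pow M)).mono ?_
  rw [hden]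
  -- the contacts
  have hct : ∀ i, 0 ≤ ct P T.H (a i) := fun i => ct_nonneg P (hHe i)
  have hcs : 0 ≤ ∑ i, (c i : ℤ) * ct P T.H (a i) :=
    Finset.sum_nonneg fun i _ => mul_nonneg (Int.natCast_nonneg _) (hct i)
  set h : ℤ := (Fintype.card ι : ℤ) with hh
  have hg0 : 0 ≤ g := Int.natCast_nonneg _
  have hh0 : 0 ≤ h := Int.natCast_nonneg _
  have hnear : (M : ℤ) * ∑ l, ∑ s, NE s l ≤
      h * g * (e0 * ∑ i, (c i : ℤ) * ct P T.H (a i)) := by
    by_cases hex : b = true ∧ ∃ s l j i, 0 < vv (V s) (T.J l j) (a i)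
    · obtain ⟨hb, s, l, j, i, hv⟩ := hex
      have h2 := vv_le_ct (over_rs hWP s) (h0 (T.c l j) i) (T.root l j)
      have h3 : 0 < ct P (T.p (T.c l j)) (a i) := by
        by_contra hcon
        push Not at hcon
        have : (e0 : ℤ) * ct P (T.p (T.c l j)) (a i) ≤ 0 :=
          mul_nonpos_of_nonneg_of_nonpos he0.le hcon
        have hv' : 0 < vv (W.comp (rs (k := k) s)) (T.J l j) (a i) := hv
        omega
      have h4 : 0 < ct P T.H (a i) := by
        rw [T.ct_H P fun x => h0 x i]
        have h5 : (T.e (T.c l j) : ℤ) * ct P (T.p (T.c l j)) (a i) ≤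
            ∑ x, (T.e x : ℤ) * ct P (T.p x) (a i) :=
          Finset.single_le_sum (f := fun x => (T.e x : ℤ) * ct P (T.p x) (a i))
            (fun x _ => mul_nonneg (Int.natCast_nonneg _) (ct_nonneg P (h0 x i)))
            (Finset.mem_univ _)
        have h6 : (1 : ℤ) ≤ T.e (T.c l j) := by exact_mod_cast T.pos _
        have h7 : 0 < (T.e (T.c l j) : ℤ) * ct P (T.p (T.c l j)) (a i) := by positivity
        linarith
      have h8 : (M : ℤ) ≤ ∑ i, (c i : ℤ) * ct P T.H (a i) := by
        rcases hram hb with h9 | h9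
        · rw [h9 i] at h4
          omega
        · exact h9
      have h10 : ∑ l, ∑ s, NE s l ≤ h * (g * e0) := by
        calc ∑ l, ∑ s, NE s l ≤ ∑ _l : ι, ∑ _s : L ≃ₐ[K] L, (e0 : ℤ) := by
              refine Finset.sum_le_sum fun l _ => Finset.sum_le_sum fun s _ => ?_
              simp only [hNE]
              split_ifs
              · exact le_rfl
              · exact he0.le
          _ = h * (g * e0) := by
              simp only [Finset.sum_const, Finset.card_univ, h5, nsmul_eq_mul, hh, hg]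
      calc (M : ℤ) * ∑ l, ∑ s, NE s l ≤ M * (h * (g * e0)) :=
            mul_le_mul_of_nonneg_left h10 (Int.natCast_nonneg _)
        _ = h * g * (e0 * M) := by ring
        _ ≤ h * g * (e0 * ∑ i, (c i : ℤ) * ct P T.H (a i)) := by
            apply mul_le_mul_of_nonneg_left _ (mul_nonneg hh0 hg0)
            exact mul_le_mul_of_nonneg_left h8 he0.le
    · have h2 : ∑ l, ∑ s, NE s l = 0 := by
        refine Finset.sum_eq_zero fun l _ => Finset.sum_eq_zero fun s _ => ?_
        simp only [hNE]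
        rw [if_neg]
        rintro ⟨hb, j, i, hv⟩
        exact hex ⟨hb, s, l, j, i, hv⟩
      rw [h2, mul_zero]
      exact mul_nonneg (mul_nonneg hh0 hg0) (mul_nonneg he0.le hcs)
  -- the columns
  have hcol : ∀ l j, ((q : ℤ) - 2 * dd l j) * SS K W (T.base (T.c l j)) ≤
      ∑ s, (β s l j - ∑ i, (V s).ord (T.J l j - algebraMap k L (a i))) := by
    intro l j
    have h2 : ∀ s, β s l j - ∑ i, (V s).ord (T.J l j - algebraMap k L (a i)) =
        e0 * cnt P (T.p (T.c l j)) + ((q : ℤ) - dd l j) * tau (V s) (T.J l j) := by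
      intro s
      simp only [hβ]
      unfold bet vv
      rw [Finset.sum_add_distrib, Finset.sum_const, Finset.card_univ, Fintype.card_fin,
        nsmul_eq_mul]
      ring
    rw [Finset.sum_congr rfl fun s _ => h2 s, Finset.sum_add_distrib, Finset.sum_const,
      Finset.card_univ, h5, nsmul_eq_mul, ← Finset.mul_sum]
    have h3 : ∑ s, tau (V s) (T.J l j) = SS K W (T.base (T.c l j)) := by
      rw [← T.SS_eq W (T.root l j)]
      rfl
    have h4 := content_ge hWP (T.irr (T.c l j)) (T.mon _) (T.sep _) (T.root l j)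
    rw [T.SS_eq W (T.root l j)] at h4
    rw [h3]
    have h6 : ((q : ℤ) - 2 * dd l j) * SS K W (T.base (T.c l j)) =
      - ((dd l j : ℤ) * SS K W (T.base (T.c l j))) +
        ((q : ℤ) - dd l j) * SS K W (T.base (T.c l j)) := by ring
    rw [h6]
    exact add_le_add_left h4 _
  have hSS : ∀ x, 0 ≤ SS K W (T.base x) := fun x => SS_nonneg W _
  have hbz : ∀ x, h * ∑ i, (c i : ℤ) + 2 * (T.p x).natDegree * M + S ≤ (q : ℤ) * M := by
    intro x
    have := hbound x
    rw [hh]
    exact_mod_cast this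
  have hqd : ∀ x, 0 ≤ (q : ℤ) - 2 * (T.p x).natDegree := by
    intro x
    by_contra hcon
    push Not at hcon
    have h1 := hbz x
    have h2 : 0 ≤ h * ∑ i, (c i : ℤ) := mul_nonneg hh0 (Finset.sum_nonneg fun i _ =>
      Int.natCast_nonneg _)
    have h3 : ((q : ℤ) - 2 * (T.p x).natDegree) * M < 0 :=
      mul_neg_of_neg_of_pos hcon (by exact_mod_cast hM)
    have h4 : ((q : ℤ) - 2 * (T.p x).natDegree) * M = q * M - 2 * (T.p x).natDegree * M := by ring
    omega
  have hcov := T.cover (fun x => ((q : ℤ) - 2 * (T.p x).natDegree) * SS K W (T.base x))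
    fun x => mul_nonneg (hqd x) (hSS x)
  -- the columns, summed
  have hsum1 : ∑ l, ∑ j, ((q : ℤ) - 2 * dd l j) * SS K W (T.base (T.c l j)) ≤
      ∑ l, ∑ j, ∑ s, (β s l j - ∑ i, (V s).ord (T.J l j - algebraMap k L (a i))) :=
    Finset.sum_le_sum fun l _ => Finset.sum_le_sum fun j _ => hcol l j
  have hA : ∑ l, ∑ s, (∑ j, β s l j - NE s l) = ∑ l, ∑ j, ∑ s, β s l j - ∑ l, ∑ s, NE s l := by
    rw [← Finset.sum_sub_distrib]
    refine Finset.sum_congr rfl fun l _ => ?_
    rw [Finset.sum_sub_distrib, Finset.sum_comm]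
  have hB : ∑ l, ∑ j, ∑ i, (M : ℤ) * ∑ s, (V s).ord (T.J l j - algebraMap k L (a i)) =
      M * ∑ l, ∑ j, ∑ s, ∑ i, (V s).ord (T.J l j - algebraMap k L (a i)) := by
    rw [Finset.mul_sum]
    refine Finset.sum_congr rfl fun l _ => ?_
    rw [Finset.mul_sum]
    refine Finset.sum_congr rfl fun j _ => ?_
    rw [← Finset.mul_sum, Finset.sum_comm]
  have hC : ∑ l, ∑ j, ∑ s, (β s l j - ∑ i, (V s).ord (T.J l j - algebraMap k L (a i))) =
      ∑ l, ∑ j, ∑ s, β s l j -
        ∑ l, ∑ j, ∑ s, ∑ i, (V s).ord (T.J l j - algebraMap k L (a i)) := by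
    simp only [Finset.sum_sub_distrib]
  -- the content
  have hcnt : ∑ i, (c i : ℤ) * P.ord (T.H.eval (algebraMap k K (a i))) =
      (∑ i, (c i : ℤ)) * cnt P T.H + ∑ i, (c i : ℤ) * ct P T.H (a i) := by
    rw [Finset.sum_mul, ← Finset.sum_add_distrib]
    refine Finset.sum_congr rfl fun i _ => ?_
    unfold ct
    ring
  have hC0 : 0 ≤ ∑ i, (c i : ℤ) := Finset.sum_nonneg fun i _ => Int.natCast_nonneg _
  have hcontent : - (h * (∑ i, (c i : ℤ)) *
      ∑ x, ((T.e x * (T.p x).natDegree : ℕ) : ℤ) * SS K W (T.base x)) ≤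
      h * g * (e0 * ((∑ i, (c i : ℤ)) * cnt P T.H)) := by
    have h2 : ∀ x, - (((T.e x * (T.p x).natDegree : ℕ) : ℤ) * SS K W (T.base x)) ≤
        g * (e0 * ((T.e x : ℤ) * cnt P (T.p x))) := by
      intro x
      have h4 := content_ge hWP (T.irr x) (T.mon x) (T.sep x) (T.broot x)
      have h5 : (0 : ℤ) ≤ T.e x := Int.natCast_nonneg _
      have h6 := mul_le_mul_of_nonneg_left h4 h5
      push_cast
      calc -((T.e x : ℤ) * (T.p x).natDegree * SS K W (T.base x)) =
            (T.e x : ℤ) * -(((T.p x).natDegree : ℤ) * SS K W (T.base x)) := by ring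
        _ ≤ _ := h6
        _ = _ := by rw [hg]; ring
    have h3 := Finset.sum_le_sum fun x (_ : x ∈ (Finset.univ : Finset κ)) => h2 x
    rw [Finset.sum_neg_distrib, ← Finset.mul_sum, ← Finset.mul_sum, ← T.cnt_H P] at h3
    have h4 := mul_le_mul_of_nonneg_left h3 (mul_nonneg hh0 hC0)
    calc _ = h * (∑ i, (c i : ℤ)) *
          -(∑ x, ((T.e x * (T.p x).natDegree : ℕ) : ℤ) * SS K W (T.base x)) := by ring
      _ ≤ _ := h4
      _ = _ := by ring
  -- the final inequality
  have hfin : (S : ℤ) * ∑ x, ((T.e x * (T.p x).natDegree : ℕ) : ℤ) * SS K W (T.base x) +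
      h * (∑ i, (c i : ℤ)) * ∑ x, ((T.e x * (T.p x).natDegree : ℕ) : ℤ) * SS K W (T.base x) ≤
      M * ∑ x, ((T.e x * (T.p x).natDegree : ℕ) : ℤ) *
        (((q : ℤ) - 2 * (T.p x).natDegree) * SS K W (T.base x)) := by
    have h1 : ∀ x ∈ (Finset.univ : Finset κ),
        ((S : ℤ) + h * ∑ i, (c i : ℤ)) * (((T.e x * (T.p x).natDegree : ℕ) : ℤ) * SS K W (T.base x)) ≤
        M * (((T.e x * (T.p x).natDegree : ℕ) : ℤ) *
          (((q : ℤ) - 2 * (T.p x).natDegree) * SS K W (T.base x))) := by
      intro x _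
      set Y : ℤ := ((T.e x * (T.p x).natDegree : ℕ) : ℤ) * SS K W (T.base x) with hY
      have hY0 : 0 ≤ Y := mul_nonneg (Int.natCast_nonneg _) (hSS x)
      have h2 := hbz x
      have e1 : (M : ℤ) * (((T.e x * (T.p x).natDegree : ℕ) : ℤ) *
          (((q : ℤ) - 2 * (T.p x).natDegree) * SS K W (T.base x))) =
          (q * M - 2 * (T.p x).natDegree * M) * Y := by
        rw [hY]; ring
      rw [e1]
      exact mul_le_mul_of_nonneg_right (by linarith) hY0
    have h2 := Finset.sum_le_sum h1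
    rw [← Finset.mul_sum, ← Finset.mul_sum] at h2
    linarith
  have hMcov := mul_le_mul_of_nonneg_left (hcov.trans hsum1) (Int.natCast_nonneg M)
  rw [hC] at hMcov
  rw [hA, hB, hcnt, Nat.cast_mul (Fintype.card ι) (Module.finrank K L), ← hh, ← hg]
  generalize (∑ x, ((T.e x * (T.p x).natDegree : ℕ) : ℤ) * SS K W (T.base x)) = X1 at *
  generalize (∑ x, ((T.e x * (T.p x).natDegree : ℕ) : ℤ) *
        (((q : ℤ) - 2 * (T.p x).natDegree) * SS K W (T.base x))) = X2 at *
  generalize (∑ l, ∑ j, ∑ s, β s l j) = X3 at *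
  generalize (∑ l, ∑ j, ∑ s, ∑ i, (V s).ord (T.J l j - algebraMap k L (a i))) = X4 at *
  generalize (∑ l, ∑ s, NE s l) = X5 at *
  generalize (∑ i, (c i : ℤ) * ct P T.H (a i)) = X6 at *
  generalize (∑ i, (c i : ℤ)) = X7 at *
  generalize cnt P T.H = X8 at *
  have e1 : h * g * (↑e0 * (X7 * X8 + X6)) = h * g * (↑e0 * (X7 * X8)) + h * g * (↑e0 * X6) := by
    ring
  rw [e1, mul_sub]
  rw [mul_sub] at hMcov
  linarith

end

/-- The form of the canonical derivation is not zero. -/
theorem phi_ne {k K L : Type} [Field k] [Field K] [Field L] [Algebra k K] [Algebra k L]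
    [Algebra K L] [IsScalarTower k K L] [IsAlgClosed k] [CharZero k] [IsFF k K]
    [FiniteDimensional K L] [IsGalois K L] {κ ι : Type} [Fintype κ] [Fintype ι]
    (T : Fam K L κ ι 1) (hJb : ∀ l, IsTranscendenceBasis k (T.J l)) {q : ℕ} (a : Fin q → k)
    {M : ℕ} {c : Fin q → ℕ} (h0 : ∀ x i, (T.p x).eval (algebraMap k K (a i)) ≠ 0)
    {D : Derivation k K K} (hD0 : D ≠ 0) : T.phi M c a 1 (fun _ => D) ≠ 0 := by
  classical
  have hchK : CharZero K := charZero_of_injective_algebraMap (algebraMap k K).injective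
  have hJa : ∀ l j i, T.J l j ≠ algebraMap k L (a i) := by
    intro l j i h
    have h1 := T.root l j
    rw [h, IsScalarTower.algebraMap_apply k K L, aeval_algebraMap_apply, map_eq_zero,
      coe_aeval_eq_eval] at h1
    exact h0 _ i h1
  obtain ⟨E, hE⟩ := exists_ext (L := L) D
  have hEJ : ∀ l, E (T.J l 0) ≠ 0 := by
    intro l hl
    have h1 : E = 0 := by
      apply der_ext (T.J l) (hJb l)
      intro j
      rw [Subsingleton.elim j 0, hl]
      rfl
    apply hD0
    ext x
    have h2 := hE x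
    rw [h1] at h2
    have h3 : algebraMap K L (D x) = 0 := h2.symm
    rw [map_eq_zero] at h3
    rw [h3]
    rfl
  have hder : ∀ (F : K[X]) (t : L), Polynomial.aeval t F = 0 →
      ev L (F.natDegree + 1) (fun j => D (F.coeff j)) t =
        (- Polynomial.aeval t (Polynomial.derivative F)) * E t := by
    intro F t ht
    have h1 := der_ev hE (F.natDegree + 1) F.coeff t
    rw [ev_eq_aeval, ht, map_zero] at h1
    have h2 : (∑ j ∈ Finset.range (F.natDegree + 1), algebraMap K L (F.coeff j) *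
        ((j : L) * t ^ (j - 1))) = Polynomial.aeval t (Polynomial.derivative F) := by
      exact sum_derivative F t
    rw [h2] at h1
    linear_combination -h1
  unfold Fam.phi
  have hden : T.den M a ≠ 0 := by
    unfold Fam.den
    exact Finset.prod_ne_zero_iff.2 fun l _ =>
      Finset.prod_ne_zero_iff.2 fun j _ => Finset.prod_ne_zero_iff.2 fun i _ =>
        pow_ne_zero _ (norm_ne (sub_ne_zero.2 (hJa l j i)))
  have hHe : ∀ i, T.H.eval (algebraMap k K (a i)) ≠ 0 := fun i => T.H_eval fun x => h0 x i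
  refine mul_ne_zero (mul_ne_zero (div_ne_zero one_ne_zero hden) (pow_ne_zero _
    (Finset.prod_ne_zero_iff.2 fun i _ => pow_ne_zero _ (hHe i)))) (pow_ne_zero _
    (Finset.prod_ne_zero_iff.2 fun l _ => norm_ne ?_))
  have h1 : T.mat l (fun _ => D) = Matrix.of fun i j =>
      (fun j => - Polynomial.aeval (T.J l j) (Polynomial.derivative (T.p (T.c l j)))) j *
        (Matrix.of fun (_ : Fin 1) j => E (T.J l j)) i j := by
    ext i j
    exact hder (T.p (T.c l j)) (T.J l j) (T.root l j)
  rw [h1, Matrix.det_mul_row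
    (fun j => - Polynomial.aeval (T.J l j) (Polynomial.derivative (T.p (T.c l j))))
    (Matrix.of fun (_ : Fin 1) j => E (T.J l j))]
  refine mul_ne_zero (Finset.prod_ne_zero_iff.2 fun j _ => neg_ne_zero.2 ?_) ?_
  · exact (T.sep _).aeval_derivative_ne_zero (T.root l j)
  · rw [Matrix.det_fin_one]
    exact hEJ l

theorem s_deg : S_DEG := by
  classical
  intro k K L _ _ _ _ _ _ _ _ _ _ _ _ κ ι _ _ _ T hJb q a ha M S c hM h0 hbound hram
  have hinf : Infinite k := inferInstance
  have hchK : CharZero K := charZero_of_injective_algebraMap (algebraMap k K).injective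
  set D : Derivation k K K := der k K with hD
  have hD0 : D ≠ 0 := der_ne
  set φ : K := T.phi M c a 1 (fun _ => D) with hφ
  have hφ0 : φ ≠ 0 := phi_ne T hJb a h0 hD0
  set A : ℕ := M * (Fintype.card ι * Module.finrank K L) with hA
  set g0 : ℕ := Module.finrank K L with hg0
  have hH0 : T.H ≠ 0 := by
    unfold Fam.H
    exact Finset.prod_ne_zero_iff.2 fun x _ => pow_ne_zero _ (T.irr x).ne_zero
  -- the local estimate
  have hloc : ∀ P : Place k K, -((S : ℤ) * g0 * cnt P T.H) + A * vo P D ≤ P.ord φ := by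
    intro P
    have hπ0 := der_pi_ne_zero hD0 P (ord_unif P)
    set g : K := (D (unif P))⁻¹ with hg
    have hgne : g ≠ 0 := inv_ne_zero hπ0
    have hgo : P.ord g = - vo P D := by
      rw [hg, P.ord_inv]
      rfl
    have hreg : DKind true P (g • D) := by
      show ∀ f, P.Reg f → P.Reg ((g • D) f)
      intro f hf
      exact der_reg P (ord_unif P) (g • D) (by simp [hg, hπ0]) hf
    obtain ⟨j, hj0, hj⟩ := cnt_att P hH0
    set ψ : K := (T.H.coeff j) ^ (S * g0) with hψ
    have hψ0 : ψ ≠ 0 := pow_ne_zero _ hj0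
    have hψo : P.ord ψ = (S : ℤ) * g0 * cnt P T.H := by
      rw [hψ, P.ord_pow, hj]
      push_cast
      ring
    obtain ⟨S', T', _, hT, hsum⟩ := exists_places_over (K' := L) P
    have hSne : S'.Nonempty := by
      by_contra hcon
      rw [Finset.not_nonempty_iff_eq_empty] at hcon
      rw [hcon, Finset.sum_empty] at hsum
      have : 0 < Module.finrank K L := Module.finrank_pos
      omega
    obtain ⟨W, hW⟩ := hSne
    obtain ⟨e, hWP, _⟩ := hT W hW
    have hGe : Ge W (-((S : ℤ) * ∑ x, ((T.e x * (T.p x).natDegree : ℕ) : ℤ) *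
        SS K W (T.base x))) (algebraMap K L ψ) := by
      right
      rw [hWP.2, hψo]
      have h2 : ∀ x, - (((T.e x * (T.p x).natDegree : ℕ) : ℤ) * SS K W (T.base x)) ≤
          (g0 : ℤ) * (e * ((T.e x : ℤ) * cnt P (T.p x))) := by
        intro x
        have h4 := content_ge hWP (T.irr x) (T.mon x) (T.sep x) (T.broot x)
        have h5 : (0 : ℤ) ≤ T.e x := Int.natCast_nonneg _
        have h6 := mul_le_mul_of_nonneg_left h4 h5
        push_cast
        calc -((T.e x : ℤ) * (T.p x).natDegree * SS K W (T.base x)) =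
              (T.e x : ℤ) * -(((T.p x).natDegree : ℤ) * SS K W (T.base x)) := by ring
          _ ≤ _ := h6
          _ = _ := by rw [hg0]; ring
      have h3 := Finset.sum_le_sum fun x (_ : x ∈ (Finset.univ : Finset κ)) => h2 x
      rw [Finset.sum_neg_distrib, ← Finset.mul_sum, ← Finset.mul_sum, ← T.cnt_H P] at h3
      have h4 := mul_le_mul_of_nonneg_left h3 (Int.natCast_nonneg S)
      calc _ = (S : ℤ) * -(∑ x, ((T.e x * (T.p x).natDegree : ℕ) : ℤ) *
            SS K W (T.base x)) := by ring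
        _ ≤ _ := h4
        _ = _ := by ring
    have hmain := ge_phiS T hWP (b := true) (fun _ => g • D) (fun _ => hreg) a ha hM h0
      (fun _ => hram P) hbound ψ hGe
    have hmain' : P.Reg (T.phi M c a ψ (fun _ => g • D)) := by
      rw [← hWP.reg]
      exact hmain
    have hval : T.phi M c a ψ (fun _ => g • D) = ψ * g ^ A * φ := by
      have h5 := T.phi_pluri M c a ψ (Matrix.of fun (_ : Fin 1) (_ : Fin 1) => g)
        (fun _ : Fin 1 => D)
      have h6 : (fun i : Fin 1 => ∑ j : Fin 1,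
          (Matrix.of fun (_ : Fin 1) (_ : Fin 1) => g) i j • (fun _ : Fin 1 => D) j) =
          (fun _ : Fin 1 => g • D) := by
        funext i
        simp
      rw [h6] at h5
      rw [h5, Matrix.det_fin_one]
      have h7 : T.phi M c a ψ (fun _ => D) = ψ * φ := by
        rw [hφ]
        unfold Fam.phi
        ring
      rw [h7]
      show g ^ (M * (Fintype.card ι * Module.finrank K L)) * (ψ * φ) = ψ * g ^ A * φ
      rw [hA]
      ring
    have hgA : P.ord (g ^ A) = A * P.ord g := P.ord_pow _ _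
    rw [hval, P.reg_iff (mul_ne_zero (mul_ne_zero hψ0 (pow_ne_zero _ hgne)) hφ0),
      P.ord_mul (mul_ne_zero hψ0 (pow_ne_zero _ hgne)) hφ0,
      P.ord_mul hψ0 (pow_ne_zero _ hgne), hψo, hgA, hgo] at hmain'
    linarith
  -- the finite set of places
  have hcf : {P : Place k K | cnt P T.H ≠ 0}.Finite := by
    have h1 : (⋃ j ∈ T.H.support, {P : Place k K | P.ord (T.H.coeff j) ≠ 0}).Finite :=
      Set.Finite.biUnion (Finset.finite_toSet _) fun j _ => finite_support _
    refine h1.subset ?_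
    intro P hP
    obtain ⟨j, hj0, hj⟩ := cnt_att P hH0
    refine Set.mem_biUnion (Polynomial.mem_support_iff.2 hj0) ?_
    show P.ord (T.H.coeff j) ≠ 0
    rw [hj]
    exact hP
  set F : Finset (Place k K) := (finite_support (k := k) φ).toFinset ∪
    (vo_finite hD0).toFinset ∪ hcf.toFinset with hF
  have hF1 : ∀ P : Place k K, P.ord φ ≠ 0 → P ∈ F := by
    intro P hP
    rw [hF, Finset.mem_union, Finset.mem_union, Set.Finite.mem_toFinset]
    exact Or.inl (Or.inl hP)
  have hF2 : ∀ P : Place k K, vo P D ≠ 0 → P ∈ F := by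
    intro P hP
    rw [hF, Finset.mem_union, Finset.mem_union, Set.Finite.mem_toFinset, Set.Finite.mem_toFinset]
    exact Or.inl (Or.inr hP)
  have hF3 : ∀ P : Place k K, cnt P T.H ≠ 0 → P ∈ F := by
    intro P hP
    rw [hF, Finset.mem_union, Set.Finite.mem_toFinset]
    exact Or.inr hP
  have e1 := sum_ord_finset φ F hF1
  have e2 := canDeg_finset hD0 F hF2
  have e3 : ∑ᶠ P : Place k K, cnt P T.H = ∑ P ∈ F, cnt P T.H :=
    finsum_eq_sum_of_support_subset _ fun P hP => hF3 P hP
  have e4 := Finset.sum_le_sum fun P (_ : P ∈ F) => hloc P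
  rw [e1, Finset.sum_add_distrib, Finset.sum_neg_distrib, ← Finset.mul_sum, ← Finset.mul_sum,
    e2] at e4
  rw [e3]
  have hg0pos : (0 : ℤ) < g0 := by
    have : 0 < Module.finrank K L := Module.finrank_pos
    exact_mod_cast this
  have e5 : (g0 : ℤ) * ((S : ℤ) * (- ∑ P ∈ F, cnt P T.H)) ≤
      g0 * (M * Fintype.card ι * canDeg k K) := by
    have e6 : (A : ℤ) = g0 * (M * Fintype.card ι) := by
      rw [hA]
      push_cast
      ring
    rw [e6] at e4
    linarith
  exact le_of_mul_le_mul_left e5 hg0pos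

end Pool.Agent.Y115.CI
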